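import Mathlib
import Pool.Agent.Y215.SK.FinB

set_option autoImplicit false

/-!
# The strong Lang conjecture for sums of elements of a group of finite rank, moving coefficients

Let `X` be an integral closed subvariety of projective `n`-space over a number field `k` which is
not uniruled (for instance a variety of general type of positive dimension), and let `r` be a
natural number.

(1) There is a proper closed subset `Z = X ∩ {G = 0}` of `X`, defined over `k` and depending only on
`X` and `r`, such that for every finitely generated group `Γ` of nonzero algebraic numbers (for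
instance the `S`-units of any number field) there is a constant `C` such that for ALL vectors
`V_1, …, V_r` of algebraic numbers and all algebraic numbers `u_1, …, u_r` with a power in `Γ`:
if `x = u_1 V_1 + … + u_r V_r` is a point of `X` outside `Z`, then `x` is proportional to a partial
sum `∑_{j ∈ J} u_j V_j` with

  `h((u_j)_{j ∈ J}) ≤ C (1 + h(V))`,   in particular   `h(x) ≤ C (1 + h(V))`.

Here `h` is the absolute logarithmic height. The field generated by the `V_j` and the `u_j` is
arbitrary.

(2) So for this `Z`, for all number fields `K`, all groups `Γ` and all `B`: only finitely many points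
of `(X ∖ Z)(K)` are of the form `∑ u_j V_j` with `u_j ^ m ∈ Γ` for some `m > 0` and `h(V) ≤ B`.

(3) If `X` is uniruled, this fails: for some `r` and every proper closed subset `G = 0` there are a
number field `K` and fixed vectors `V_1, …, V_r` such that infinitely many points of `X(K)` off
`G = 0` are of the form `∑ u_j V_j` where the `u_j` are powers of `2` (or roots of these).

Method: a subspace theorem over an arbitrary number field, with moving coefficients of small height,
is proved by restriction of scalars from the one over `ℤ` (parametric lattices, Schmidt); Galois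
descent removes the condition that the coefficients lie in a fixed number field.  So in the field of
germs (along an ultrafilter) of sequences of algebraic numbers, germs from the group `Γ` with non
negligible ratios are linearly independent over the subfield of the germs of negligible height.
Applied to the monomials of the equations of `X` this gives a nonconstant rational curve with `r`
terms on `X` through the generic point of the sequence, unless the multipliers in some block have
negligible height; since `X` is not uniruled, these curves lie in a fixed hypersurface.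
-/

namespace Pool.Agent.Results.MP_7ede32_ag.FiniteRankSums

open MvPolynomial Pool.Agent.Helper259.AbsHt Pool.Agent.H533R3.SL Pool.Agent.Y215.SK

theorem result (k : Type) [Field k] [NumberField k] (n N : ℕ)
    (P : Fin N → MvPolynomial (Fin (n + 1)) k) (hP : ∀ i, ∃ e, (P i).IsHomogeneous e)
    (hprime : (Ideal.span (Set.range P)).IsPrime) :
    (¬ Uniruled (Ideal.span (Set.range P)) → ∀ r : ℕ,
      ∃ G : MvPolynomial (Fin (n + 1)) k, (∃ e, G.IsHomogeneous e) ∧
        G ∉ Ideal.span (Set.range P) ∧
        ∀ [Algebra k Qbar] (Γ : Subgroup Qbarˣ), Γ.FG →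
          (∃ C : ℝ, ∀ (u : Fin r → Qbarˣ) (V : Fin r → Fin (n + 1) → Qbar),
            (∀ j, u j ∈ DivHull Γ) → OnOff P G (psum Finset.univ u V) →
            absLogHeight (psum Finset.univ u V) ≤ C * (1 + hV V) ∧
            ∃ (J : Finset (Fin r)) (c : Qbar), c ≠ 0 ∧
              psum J u V = c • psum Finset.univ u V ∧
              absLogHeight (fun j : J => (u j : Qbar)) ≤ C * (1 + hV V)) ∧
          ∀ (K : Type) [Field K] [NumberField K] (φ : K →+* Qbar) (B : ℝ),
            (ratPts φ P G Γ {V : Fin r → Fin (n + 1) → Qbar | hV V ≤ B}).Finite) ∧
    (Uniruled (Ideal.span (Set.range P)) →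
      ∃ r : ℕ, ∀ G : MvPolynomial (Fin (n + 1)) k, (∃ e, G.IsHomogeneous e) →
        G ∉ Ideal.span (Set.range P) →
        ∃ (_ : Algebra k Qbar) (K : Type) (_ : Field K) (_ : NumberField K) (φ : K →+* Qbar)
          (V : Fin r → Fin (n + 1) → Qbar),
          (ratPts φ P G (Subgroup.closure {Units.mk0 (2 : Qbar) two_ne_zero}) {V}).Infinite) := by
  refine ⟨fun hnu r => ?_, fun hu => converse2 k P hu⟩
  choose e he using hP
  obtain ⟨G, h1, h2, h3⟩ := exists_hyper (Set.range P) hprime hnu (∑ i, e i + 1) (by omega) (by
    rintro _ ⟨i, rfl⟩
    refine ⟨e i, ?_, he i⟩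
    have := Finset.single_le_sum (f := e) (fun _ _ => Nat.zero_le _) (Finset.mem_univ i)
    omega) r
  refine ⟨G, h1, h2, fun {_} Γ hΓ => ?_⟩
  obtain ⟨C, hC⟩ := mult_bound P (fun i => ⟨_, he i⟩) G h1 (fun L _ _ c l hz hc => by
    refine h3 L c l ?_ hc
    rintro _ ⟨i, rfl⟩
    exact hz i) Γ hΓ
  refine ⟨⟨|C| + r + 1, fun u V hu hon => ?_⟩, fun K _ _ φ B => ratPts_finite φ P G Γ C hC B⟩
  obtain ⟨J, hJ, hh⟩ := hC u V hu hon
  obtain ⟨c, hc, hc2⟩ := good_prop J u V hJ hon.1
  have hV0 : 0 ≤ hV V := absLogHeight_nonneg _
  have hr : (0 : ℝ) ≤ r := Nat.cast_nonneg r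
  have h4 : C * (1 + hV V) ≤ |C| * (1 + hV V) :=
    mul_le_mul_of_nonneg_right (le_abs_self C) (by linarith)
  have h5 : 0 ≤ (r : ℝ) * hV V := mul_nonneg hr hV0
  refine ⟨?_, J, c, hc, hc2, hh.trans ?_⟩
  · rw [← absLogHeight_smul _ hc, ← hc2]
    have h6 := psum_height J u V
    nlinarith
  · nlinarith

end Pool.Agent.Results.MP_7ede32_ag.FiniteRankSums
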