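import Pool.Agent.Y377.ST.StrongB

set_option autoImplicit false

/-!
# The strong Lang conjecture for points given by iterated recurrences, with a uniform bound

Let `X` be the closed subvariety of projective `n`-space over a number field `k` given by the forms
in `FF`, which generate a prime ideal.  We consider families `x(h)` of points of `X`, where `h` is
in an arbitrary group `H`, with coordinates given by iterated linear recurrences: there are
invertible matrices `X_1(h), ..., X_s(h)` of size `r` such that, for all `g` in `H`, the matrix
`X_l(g h) X_l(h)⁻¹` is for all `h` a polynomial of degree at most `e` in each of the entries of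
`X_i(h)`, `X_i(h)⁻¹`, `i < l`, and the coordinates of `x(h)` are such polynomials in the entries of
all these matrices.  One step `s = 1` with `r = r`, `e = 1` gives the orbits `M ρ(h) v` of all
representations of `H` of dimension `r`; for `H = ℤ` and two steps one has for example
`2 ^ (n ^ 2)`.

If `X` is not uniruled (for instance of general type, of positive dimension) then for all
`s, r, e` there are one proper closed subset `Z` of `X` and one number `B` such that for all groups
`H`, all fields `L ⊇ k` embeddable in `ℂ` and all such families of points of `X(L)` at most `B`
different points of the family are outside `Z`.  If `X` is uniruled this fails, even for finiteness.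

Method: if every proper closed subset of `X` over `k` and every bound fail for some family, then an
ultraproduct of families (for the product of the groups) is a family of points in `X`, with
infinitely many different points which are generic over `k`.  After the restriction to the cosets
of a normal subgroup of finite index the functions of the tower generate a field with a group of
automorphisms (projects IR of helper377, with lemmas of helpers 312, 657, 921, 987, 523, 737, 495,
68, 401, 529), and a nonconstant point gives a rational curve through its generic point; so `X` is
uniruled.  The homomorphism which defines the ultraproduct is due to helper455 and helper448, the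
passage to `Uniruled` to helper837 and helper465.
-/

namespace Pool.Agent.Results.MP_7ede32_ag.IteratedStrongLang

open Pool.Agent.H533R3.SL Pool.Agent.Y377.ST

/-- Let `X ⊆ ℙⁿ` be given by the forms in `FF` over the number field `k`.

(1) If `X` is not uniruled, then for all `s`, `r`, `e` there are a form `G` over `k` which does not
vanish on `X` and a number `B`, such that for all fields `L ⊇ k` which can be embedded in `ℂ`, all
groups `H` and all families `x(h)`, `h ∈ H`, of vectors over `L`, given by iterated recurrences
with `s` steps, matrices of size `r` and polynomials of degree at most `e` in each variable, if all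
nonzero `x(h)` are points of `X`, then at most `B` different ones of these points are outside of
`G = 0`.

(2) If `X` is uniruled, then there is an `r` such that for all forms `G` over `k` which do not
vanish on `X` there are a number field `L ⊇ k` and a family of points of `X(L)`, indexed by the
infinite cyclic group, given by a recurrence with one step, a matrix of size `r` and polynomials of
degree at most `1`, which has infinitely many points outside of `G = 0`. -/
theorem result (k : Type) [Field k] [NumberField k] (n : ℕ)
    (FF : Finset (MvPolynomial (Fin (n + 1)) k)) (hhom : ∀ F ∈ FF, ∃ e, F.IsHomogeneous e)
    (hprime : (Ideal.span (FF : Set (MvPolynomial (Fin (n + 1)) k))).IsPrime) :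
    (¬ Uniruled (Ideal.span (FF : Set (MvPolynomial (Fin (n + 1)) k))) → ∀ s r e : ℕ,
      ∃ (G : MvPolynomial (Fin (n + 1)) k) (B : ℕ), (∃ d, G.IsHomogeneous d) ∧
        G ∉ Ideal.span (FF : Set (MvPolynomial (Fin (n + 1)) k)) ∧
        ∀ (L : Type) [Field L] [Algebra k L] (_ : L →+* ℂ) (H : Type) [Group H]
          (x : H → Fin (n + 1) → L), IterVec s r e x →
          (∀ h, ∀ F ∈ FF, MvPolynomial.aeval (x h) F = 0) → (ptsOff G x).encard ≤ (B : ℕ∞)) ∧
    (Uniruled (Ideal.span (FF : Set (MvPolynomial (Fin (n + 1)) k))) → ∃ r : ℕ,
      ∀ G : MvPolynomial (Fin (n + 1)) k, (∃ d, G.IsHomogeneous d) →
        G ∉ Ideal.span (FF : Set (MvPolynomial (Fin (n + 1)) k)) →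
        ∃ (L : Type) (_ : Field L) (_ : NumberField L) (_ : Algebra k L)
          (x : Multiplicative ℤ → Fin (n + 1) → L), IterVec 1 r 1 x ∧
          (∀ h, ∀ F ∈ FF, MvPolynomial.aeval (x h) F = 0) ∧ (ptsOff G x).Infinite) :=
  strongB_iff FF hhom hprime

end Pool.Agent.Results.MP_7ede32_ag.IteratedStrongLang
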