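import Mathlib
import Pool.Agent.Y215.SK.FinC
import Pool.Agent.Y215.SP.Conv

set_option autoImplicit false

/-!
# The strong Lang conjecture for points close to a group of finite rank (Mordell–Lang plus
Bogomolov, for sums)

Let `X` be an integral closed subvariety of projective `n`-space over a field `k` of algebraic
numbers (for instance a number field), given by forms of degree at most `d`, which is not uniruled
(for instance a variety of general type of positive dimension), and let `r` be a natural number.

(1) There is a proper closed subset `Z = X ∩ {G = 0}` of `X`, defined over `k` and depending only on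
`X` and `r`, such that for every finitely generated group `Γ` of nonzero algebraic numbers and all
vectors `V_1, …, V_r` of algebraic numbers only finitely many points of `X ∖ Z` over the field of
ALL algebraic numbers have homogeneous coordinates

  `u_1 s_1 V_1 + … + u_r s_r V_r`,  `u_j ^ m ∈ Γ` for some `m > 0`,  `h(s_1 : … : s_r) < ε`.

Here `ε > 0` depends only on `d` and `r`. The number of these points is at most `A (1 + h(V)) ^ e`,
where `A` and `e` do not depend on the vectors `V_j`.

(2) If `X` is uniruled, this fails: for some `r` and every proper closed subset `G = 0` there are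
vectors `V_j` such that for all `Γ` and all `ε > 0` there are infinitely many such points.

Method: by the subspace theorem over number fields with moving coefficients (`FiniteRankSums`), each
such point is already a partial sum in which the ratios of the `u_j` have height at most
`C (1 + ε + h(V))`. The elements of bounded height of the division group of `Γ` are covered by
finitely many translates `z` of elements of height at most `δ`, since the exponents with respect to
independent generators are bounded by the height; so the point is a combination of the fixed vectors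
`z_j V_j` with multipliers of height less than `ε(d, r)`, and the uniform theorem for such points
(`SmallMultipliers`, a Bogomolov type theorem) applies.
-/

namespace Pool.Agent.Results.MP_7ede32_ag.NearFiniteRank

open MvPolynomial Pool.Agent.Helper259.AbsHt Pool.Agent.H533R3.SL Pool.Agent.Y215.SK
open Pool.Agent.Y215.SP

theorem result (d : ℕ) (hd : 1 ≤ d) (r : ℕ) :
    (∃ ε : ℝ, 0 < ε ∧
      ∀ (k : Type) [Field k] (n N : ℕ) (P : Fin N → MvPolynomial (Fin (n + 1)) k),
        (∀ i, ∃ e, e ≤ d ∧ (P i).IsHomogeneous e) →
        (Ideal.span (Set.range P)).IsPrime → ¬ Uniruled (Ideal.span (Set.range P)) →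
        ∃ G : MvPolynomial (Fin (n + 1)) k, (∃ e, G.IsHomogeneous e) ∧
          G ∉ Ideal.span (Set.range P) ∧
          ∀ [Algebra k Qbar] (Γ : Subgroup Qbarˣ), Γ.FG →
            ∃ (A : ℝ) (e : ℕ), ∀ V : Fin r → Fin (n + 1) → Qbar,
              (mixPts P G Γ ε V).Finite ∧ ((mixPts P G Γ ε V).ncard : ℝ) ≤ A * (1 + hV V) ^ e) ∧
    (∀ (k : Type) [Field k] [NumberField k] (n N : ℕ) (P : Fin N → MvPolynomial (Fin (n + 1)) k),
      Uniruled (Ideal.span (Set.range P)) →
      ∃ s : ℕ, ∀ G : MvPolynomial (Fin (n + 1)) k, (∃ e, G.IsHomogeneous e) →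
        G ∉ Ideal.span (Set.range P) →
        ∃ (_ : Algebra k Qbar) (V : Fin s → Fin (n + 1) → Qbar),
          ∀ (Γ : Subgroup Qbarˣ) (ε : ℝ), 0 < ε → (mixPts P G Γ ε V).Infinite) := by
  refine ⟨⟨epsn ((d + 1) ^ r) / d / 2, ?_, ?_⟩, ?_⟩
  · exact half_pos (div_pos (epsn_pos _ (Nat.one_le_pow _ _ (by omega))) (by exact_mod_cast hd))
  · intro k _ n N P hP hprime hnu
    obtain ⟨G, h1, h2, h3⟩ := exists_hyper (Set.range P) hprime hnu d hd (by
      rintro _ ⟨i, rfl⟩
      exact hP i) r
    refine ⟨G, h1, h2, fun {_} Γ hΓ => mix_finite P d hd hP G h1 (fun L _ _ c l hz hc => ?_) Γ hΓ⟩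
    refine h3 L c l ?_ hc
    rintro _ ⟨i, rfl⟩
    exact hz i
  · intro k _ _ n N P hu
    obtain ⟨s, hs⟩ := converse k P hu
    refine ⟨s, fun G hG hGI => ?_⟩
    obtain ⟨alg, V, hV⟩ := hs G hG hGI
    refine ⟨alg, V, fun Γ ε hε => hV.mono ?_⟩
    rintro p ⟨ζ, hζ, hz, hG', h, rfl⟩
    have hζ0 : ∀ j, ζ j ≠ 0 := by
      intro j h0
      obtain ⟨m, hm, h1⟩ := hζ j
      rw [h0, zero_pow hm.ne'] at h1
      exact zero_ne_one h1
    have e : Pool.Agent.Y215.SK.psum Finset.univ (fun j => Units.mk0 (ζ j) (hζ0 j))
        (fun j a => (1 : Fin s → Qbar) j * V j a) = fun a => ∑ j, ζ j * V j a := by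
      funext a
      unfold Pool.Agent.Y215.SK.psum
      refine Finset.sum_congr rfl fun j _ => ?_
      show ζ j * (1 * V j a) = ζ j * V j a
      rw [one_mul]
    refine ⟨fun j => Units.mk0 (ζ j) (hζ0 j), 1, fun j => ?_, ?_, ?_, ?_⟩
    · obtain ⟨m, hm, h1⟩ := hζ j
      refine ⟨m, hm, ?_⟩
      have h2 : (Units.mk0 (ζ j) (hζ0 j)) ^ m = 1 := by
        apply Units.ext
        rw [Units.val_pow_eq_pow_val, Units.val_mk0, h1, Units.val_one]
      rw [h2]
      exact Γ.one_mem
    · have h1 : absLogHeight (1 : Fin s → Qbar) ≤ 0 := by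
        refine (height_le_sum _).trans ?_
        simp only [Pi.one_apply, h1_one, Finset.sum_const_zero, le_refl]
      exact lt_of_le_of_lt h1 hε
    · rw [e]
      exact ⟨h, hz, hG'⟩
    · have h1 : Pool.Agent.Y215.SK.psum Finset.univ (fun j => Units.mk0 (ζ j) (hζ0 j))
        (fun j a => (1 : Fin s → Qbar) j * V j a) ≠ 0 := by
        rw [e]
        exact h
      exact ⟨h1, mk_congr h h1 e.symm⟩

end Pool.Agent.Results.MP_7ede32_ag.NearFiniteRank
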