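import Mathlib
import Pool.Agent.Y213.TB.Fin

/-!
# Points of rank one over infinitely many number fields at once

Let `E : y² = x³ + a x + b` be an elliptic curve over the algebraic numbers, with algebraic integers
`a`, `b`. We consider the closed subsets `X` of `E ^ n` over the algebraic numbers and their points
`P` of rank at most one (the coordinates of `P` generate a group of rank at most one; more generally
this is assumed for `P - P₀`) that are defined over a number field `L` with many primes of small norm: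
at least `δ [L : ℚ]` primes of norm at most `q` that do not divide `2 (4 a³ + 27 b²)`. For instance
`L` may be any extension of `ℚ(a, b)` of bounded degree, or in which a given good prime splits
completely or has bounded local degrees. The points over all these fields together lie on at most
`C (1 + h) ^ (n / 2 + 1)` translates of abelian subvarieties contained in `X`, where `h` bounds the
heights of `X` and `P₀` and `C` depends only on `E`, `n`, `q`, `δ` and the degree of `X`.
-/

set_option autoImplicit false

namespace Pool.Agent.Results.MP_7ede32_ag.RankOneManyFields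

open MvPolynomial WeierstrassCurve NumberField IsDedekindDomain

/-- the field of algebraic numbers -/
abbrev Qbar : Type := AlgebraicClosure ℚ

/-- the curve `E : y² = x³ + a x + b` -/
noncomputable def curve (a b : Qbar) : WeierstrassCurve Qbar := ⟨0, 0, 0, a, b⟩

/-- the group `E(Qbar)` -/
abbrev Pt (a b : Qbar) : Type := (curve a b).toAffine.Point

/-- homogeneous coordinates: `(x : y : 1)`, and `(0 : 1 : 0)` for the origin -/
noncomputable def coords {a b : Qbar} : Pt a b → Fin 3 → Qbar
  | .zero => ![0, 1, 0]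
  | .some x y _ => ![x, y, 1]

/-- the absolute logarithmic Weil height of a projective vector of algebraic numbers -/
noncomputable def ht {ι : Type} [Finite ι] (x : ι → Qbar) : ℝ :=
  Pool.Agent.Helper259.AbsHt.absLogHeight x

/-- all forms of `F` are multihomogeneous (of degrees `d i` in the coordinates of the `i`-th point),
of total degree at most `D`, with a vector of coefficients of height at most `h` -/
def Forms {n : ℕ} (D : ℕ) (h : ℝ) (F : Finset (MvPolynomial (Fin n × Fin 3) Qbar)) : Prop :=
  ∀ f ∈ F, (∃ d : Fin n → ℕ, (∀ m ∈ f.support, ∀ i, ∑ j, m (i, j) = d i) ∧ ∑ i, d i ≤ D) ∧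
    ht (fun m : f.support => coeff m.1 f) ≤ h

/-- `P` lies on the closed subset `X` of `E ^ n` given by `F` -/
def OnX {a b : Qbar} {n : ℕ} (F : Finset (MvPolynomial (Fin n × Fin 3) Qbar))
    (P : Fin n → Pt a b) : Prop :=
  ∀ f ∈ F, eval (fun p => coords (P p.1) p.2) f = 0

/-- the coordinates of `A` generate a group of rank at most one -/
def RankLeOne [DecidableEq Qbar] {a b : Qbar} {n : ℕ} (A : Fin n → Pt a b) : Prop :=
  Module.rank ℤ (AddSubgroup.closure (Set.range A)) ≤ 1

/-- the number field `L` has at least `δ [L : ℚ]` primes of norm at most `q` that do not divide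
`2 (4 a³ + 27 b²)` -/
def ManyPrimes (q : ℕ) (δ : ℝ) {L : Type} [Field L] [NumberField L] (a b : L) : Prop :=
  ∃ T : Finset (HeightOneSpectrum (𝓞 L)), δ * Module.finrank ℚ L ≤ T.card ∧
    ∀ w ∈ T, Ideal.absNorm w.asIdeal ≤ q ∧
      ∀ x : 𝓞 L, (x : L) = 2 * (4 * a ^ 3 + 27 * b ^ 2) → x ∉ w.asIdeal

/-- `A` is defined over a number field containing `a` and `b` with many primes of small norm -/
def OverManyPrimes (q : ℕ) (δ : ℝ) {a b : Qbar} {n : ℕ} (A : Fin n → Pt a b) : Prop :=
  ∃ (L : IntermediateField ℚ Qbar) (_ : NumberField L) (a' b' : L), (a' : Qbar) = a ∧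
    (b' : Qbar) = b ∧ (∀ i j, coords (A i) j ∈ L) ∧ ManyPrimes q δ a' b'

/-- the translate `Q + M E(Qbar) ^ (n + 2)` of an algebraic subgroup of `E ^ n` -/
def translate [DecidableEq Qbar] {a b : Qbar} {n : ℕ} (Q : Fin n → Pt a b)
    (M : Fin (n + 2) → Fin n → ℤ) : Set (Fin n → Pt a b) :=
  {P | ∃ z : Fin (n + 2) → Pt a b, ∀ i, P i = Q i + ∑ l, M l i • z l}

lemma crd_eq {a b : Qbar} (P : Pt a b) :
    Pool.Agent.TH954.crd (W := Pool.Agent.TH942.sw a b) P = coords P := by
  match P with
  | .zero => rfl
  | .some x y h => rfl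

/-- **Theorem.** Let `E : y² = x³ + a x + b` be an elliptic curve, `a` and `b` algebraic integers. For
all `n`, `D`, `q` and `δ > 0` there is `C` such that for all closed subsets `X` of `E ^ n` given by
finitely many forms of degree at most `D` and of height at most `h`, and all `P₀` in `E(Qbar) ^ n` of
height at most `h`, there are at most `C (1 + h) ^ (n / 2 + 1)` translates `Q + M E ^ (n + 2)`
contained in `X` such that every point `P` of `X(Qbar)` for which the coordinates of `P - P₀` generate
a group of rank at most one and are defined over some number field containing `a` and `b` with at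
least `δ [L : ℚ]` primes of norm at most `q` not dividing `2 (4 a³ + 27 b²)` lies on one of them. -/
theorem result [DecidableEq Qbar] (a b : Qbar) (ha : IsIntegral ℤ a) (hb : IsIntegral ℤ b)
    (hE : 4 * a ^ 3 + 27 * b ^ 2 ≠ 0) (n D q : ℕ) (δ : ℝ) (hδ : 0 < δ) :
    ∃ C : ℝ, ∀ (h : ℝ) (F : Finset (MvPolynomial (Fin n × Fin 3) Qbar)) (P₀ : Fin n → Pt a b),
      0 ≤ h → Forms D h F → (∀ i, ht (coords (P₀ i)) ≤ h) →
      ∃ 𝒯 : Finset ((Fin n → Pt a b) × (Fin (n + 2) → Fin n → ℤ)),
        (𝒯.card : ℝ) ≤ C * (1 + h) ^ ((n : ℝ) / 2 + 1) ∧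
        (∀ p ∈ 𝒯, ∀ P ∈ translate p.1 p.2, OnX F P) ∧
        ∀ P : Fin n → Pt a b, OnX F P → RankLeOne (P - P₀) → OverManyPrimes q δ (P - P₀) →
          ∃ p ∈ 𝒯, P ∈ translate p.1 p.2 := by
  obtain ⟨C, hC, hmain⟩ := Pool.Agent.Y213.TB.fin a b ha hb hE n D q δ hδ
  refine ⟨C, ?_⟩
  intro h F P₀ hh hF hP₀
  obtain ⟨𝒯, h1, h2, h3⟩ := hmain h hh F (fun f hf => (hF f (by exact hf)).1)
    (fun f hf => (hF f hf).2) P₀ (fun i => by
      rw [crd_eq]
      exact hP₀ i)
  have hpow : Real.sqrt (1 + h) ^ n * (1 + h) = (1 + h) ^ ((n : ℝ) / 2 + 1) := by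
    have h0 : 0 < 1 + h := by linarith
    rw [Real.rpow_add h0, Real.rpow_one, Real.sqrt_eq_rpow, ← Real.rpow_natCast,
      ← Real.rpow_mul h0.le]
    congr 2
    ring
  refine ⟨𝒯, ?_, ?_, ?_⟩
  · rw [← hpow]
    exact h1
  · rintro p hp P ⟨z, hz⟩ f hf
    have h4 := h2 p hp z f hf
    simp_rw [crd_eq] at h4
    have h5 : P = fun i => p.1 i + ∑ l, p.2 l i • z l := funext hz
    rw [h5]
    exact h4
  · intro P hP hr ho
    refine h3 P ?_ hr ?_
    · intro f hf
      have h4 := hP f hf
      simp_rw [← crd_eq] at h4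
      exact h4
    · obtain ⟨L, iN, a', b', ha', hb', hc, T, hT1, hT2⟩ := ho
      refine ⟨L, iN, ha' ▸ a'.2, hb' ▸ b'.2, fun i j => ?_, T, hT1,
        fun w hw => ⟨(hT2 w hw).1, fun x hx => (hT2 w hw).2 x ?_⟩⟩
      · have h4 := hc i j
        rw [← crd_eq] at h4
        exact h4
      · apply (algebraMap L Qbar).injective
        rw [← ha', ← hb'] at hx
        exact hx

end Pool.Agent.Results.MP_7ede32_ag.RankOneManyFields
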